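import Mathlib

/-! The algebra of pairs `(u, v)` of elements of a Banach algebra with the norm
`max ‖u‖ ‖v‖ + ‖u - v‖ / r`: a bounded natural family of maps is Lipschitz. -/

set_option autoImplicit false

open Filter Topology

namespace Pool.Agent.CampanaB

/-- pairs `(u, v)` with the norm `max ‖u‖ ‖v‖ + ‖u - v‖ / r` -/
def PairA (E : Type) (_r : ℝ) : Type := E × E

namespace PairA

variable {E : Type} {r : ℝ}

instance [CommRing E] : CommRing (PairA E r) := inferInstanceAs (CommRing (E × E))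

instance [CommRing E] [Algebra ℂ E] : Algebra ℂ (PairA E r) := inferInstanceAs (Algebra ℂ (E × E))

/-- the pair `(u, v)` -/
def mk (u v : E) : PairA E r := (u, v)

section

variable [NormedCommRing E]

/-- the norm -/
noncomputable def nrm (r : ℝ) (x : PairA E r) : ℝ := max ‖x.1‖ ‖x.2‖ + ‖x.1 - x.2‖ / r

/-- the norm of the pairs, bundled -/
noncomputable def agn (E : Type) (r : ℝ) [NormedCommRing E] (hr : 0 < r) : AddGroupNorm (PairA E r) where
  toFun := nrm r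
  map_zero' := by
    show max ‖(0 : E)‖ ‖(0 : E)‖ + ‖(0 : E) - 0‖ / r = 0
    simp
  add_le' := fun x y => by
    show max ‖x.1 + y.1‖ ‖x.2 + y.2‖ + ‖(x.1 + y.1) - (x.2 + y.2)‖ / r ≤
      (max ‖x.1‖ ‖x.2‖ + ‖x.1 - x.2‖ / r) + (max ‖y.1‖ ‖y.2‖ + ‖y.1 - y.2‖ / r)
    have h1 : max ‖x.1 + y.1‖ ‖x.2 + y.2‖ ≤ max ‖x.1‖ ‖x.2‖ + max ‖y.1‖ ‖y.2‖ :=
      max_le ((norm_add_le _ _).trans (add_le_add (le_max_left _ _) (le_max_left _ _)))
        ((norm_add_le _ _).trans (add_le_add (le_max_right _ _) (le_max_right _ _)))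
    have h2 : ‖(x.1 + y.1) - (x.2 + y.2)‖ ≤ ‖x.1 - x.2‖ + ‖y.1 - y.2‖ := by
      have h3 : (x.1 + y.1) - (x.2 + y.2) = (x.1 - x.2) + (y.1 - y.2) := by ring
      rw [h3]
      exact norm_add_le _ _
    have h4 : ‖(x.1 + y.1) - (x.2 + y.2)‖ / r ≤ ‖x.1 - x.2‖ / r + ‖y.1 - y.2‖ / r := by
      rw [← add_div]
      gcongr
    linarith
  neg' := fun x => by
    show max ‖-x.1‖ ‖-x.2‖ + ‖-x.1 - -x.2‖ / r = max ‖x.1‖ ‖x.2‖ + ‖x.1 - x.2‖ / r
    have h3 : -x.1 - -x.2 = -(x.1 - x.2) := by ring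
    rw [h3, norm_neg, norm_neg, norm_neg]
  eq_zero_of_map_eq_zero' := fun x hx => by
    have h0 : max ‖x.1‖ ‖x.2‖ + ‖x.1 - x.2‖ / r = 0 := hx
    have h1 : 0 ≤ ‖x.1 - x.2‖ / r := by positivity
    have h2 : ‖x.1‖ ≤ 0 := (le_max_left _ _).trans (by linarith)
    have h3 : ‖x.2‖ ≤ 0 := (le_max_right _ _).trans (by linarith)
    exact Prod.ext (norm_le_zero_iff.1 h2) (norm_le_zero_iff.1 h3)

variable [hr : Fact (0 < r)]

noncomputable instance instNACG : NormedAddCommGroup (PairA E r) :=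
  (agn E r hr.out).toNormedAddCommGroup

theorem norm_def (x : PairA E r) : ‖x‖ = max ‖x.1‖ ‖x.2‖ + ‖x.1 - x.2‖ / r := rfl

theorem norm_fst_le (x : PairA E r) : ‖x.1‖ ≤ ‖x‖ := by
  have h := hr.out
  rw [norm_def]
  have h1 : 0 ≤ ‖x.1 - x.2‖ / r := by positivity
  linarith [le_max_left ‖x.1‖ ‖x.2‖]

theorem norm_snd_le (x : PairA E r) : ‖x.2‖ ≤ ‖x‖ := by
  have h := hr.out
  rw [norm_def]
  have h1 : 0 ≤ ‖x.1 - x.2‖ / r := by positivity
  linarith [le_max_right ‖x.1‖ ‖x.2‖]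

theorem norm_sub_le' (x : PairA E r) : ‖x.1 - x.2‖ ≤ r * ‖x‖ := by
  have h := hr.out
  rw [norm_def]
  have h1 : 0 ≤ max ‖x.1‖ ‖x.2‖ := (norm_nonneg _).trans (le_max_left _ _)
  have h2 : r * (‖x.1 - x.2‖ / r) = ‖x.1 - x.2‖ := by field_simp
  nlinarith [mul_nonneg h.le h1]

noncomputable instance instNCR : NormedCommRing (PairA E r) :=
  { instNACG, (inferInstance : CommRing (PairA E r)) with
    norm_mul_le := fun x y => by
      have hr0 := hr.out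
      show max ‖x.1 * y.1‖ ‖x.2 * y.2‖ + ‖x.1 * y.1 - x.2 * y.2‖ / r ≤
        (max ‖x.1‖ ‖x.2‖ + ‖x.1 - x.2‖ / r) * (max ‖y.1‖ ‖y.2‖ + ‖y.1 - y.2‖ / r)
      have hx0 : 0 ≤ max ‖x.1‖ ‖x.2‖ := (norm_nonneg _).trans (le_max_left _ _)
      have hy0 : 0 ≤ max ‖y.1‖ ‖y.2‖ := (norm_nonneg _).trans (le_max_left _ _)
      have h1 : max ‖x.1 * y.1‖ ‖x.2 * y.2‖ ≤ max ‖x.1‖ ‖x.2‖ * max ‖y.1‖ ‖y.2‖ := by
        refine max_le ((norm_mul_le _ _).trans ?_) ((norm_mul_le _ _).trans ?_)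
        · exact mul_le_mul (le_max_left _ _) (le_max_left _ _) (norm_nonneg _) hx0
        · exact mul_le_mul (le_max_right _ _) (le_max_right _ _) (norm_nonneg _) hx0
      have h2 : ‖x.1 * y.1 - x.2 * y.2‖ ≤
          max ‖x.1‖ ‖x.2‖ * ‖y.1 - y.2‖ + ‖x.1 - x.2‖ * max ‖y.1‖ ‖y.2‖ := by
        have h3 : x.1 * y.1 - x.2 * y.2 = x.1 * (y.1 - y.2) + (x.1 - x.2) * y.2 := by ring
        rw [h3]
        refine (norm_add_le _ _).trans (add_le_add ?_ ?_)
        · exact (norm_mul_le _ _).trans (mul_le_mul_of_nonneg_right (le_max_left _ _) (norm_nonneg _))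
        · exact (norm_mul_le _ _).trans (mul_le_mul_of_nonneg_left (le_max_right _ _) (norm_nonneg _))
      have h4 : ‖x.1 * y.1 - x.2 * y.2‖ / r ≤
          max ‖x.1‖ ‖x.2‖ * (‖y.1 - y.2‖ / r) + (‖x.1 - x.2‖ / r) * max ‖y.1‖ ‖y.2‖ := by
        refine (div_le_div_of_nonneg_right h2 hr0.le).trans (le_of_eq ?_)
        ring
      have h5 : 0 ≤ (‖x.1 - x.2‖ / r) * (‖y.1 - y.2‖ / r) := by positivity
      nlinarith
    mul_comm := mul_comm }

instance [NormOneClass E] : NormOneClass (PairA E r) where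
  norm_one := by
    show max ‖(1 : E)‖ ‖(1 : E)‖ + ‖(1 : E) - 1‖ / r = 1
    simp

noncomputable instance [NormedAlgebra ℂ E] : NormedAlgebra ℂ (PairA E r) :=
  { (inferInstance : Algebra ℂ (PairA E r)) with
    norm_smul_le := fun c x => by
      show max ‖c • x.1‖ ‖c • x.2‖ + ‖c • x.1 - c • x.2‖ / r ≤
        ‖c‖ * (max ‖x.1‖ ‖x.2‖ + ‖x.1 - x.2‖ / r)
      rw [← smul_sub, norm_smul, norm_smul, norm_smul, mul_add, mul_max_of_nonneg _ _ (norm_nonneg c),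
        mul_div_assoc] }

instance [CompleteSpace E] : CompleteSpace (PairA E r) := by
  have hr0 := hr.out
  refine Metric.complete_of_cauchySeq_tendsto fun u hu => ?_
  have hl1 : LipschitzWith 1 (fun x : PairA E r => x.1) := LipschitzWith.of_dist_le_mul fun x y => by
    rw [NNReal.coe_one, one_mul, dist_eq_norm, dist_eq_norm]
    exact norm_fst_le (x - y)
  have hl2 : LipschitzWith 1 (fun x : PairA E r => x.2) := LipschitzWith.of_dist_le_mul fun x y => by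
    rw [NNReal.coe_one, one_mul, dist_eq_norm, dist_eq_norm]
    exact norm_snd_le (x - y)
  obtain ⟨a, ha⟩ := cauchySeq_tendsto_of_complete (hl1.cauchySeq_comp hu)
  obtain ⟨b, hb⟩ := cauchySeq_tendsto_of_complete (hl2.cauchySeq_comp hu)
  refine ⟨mk a b, tendsto_iff_norm_sub_tendsto_zero.2 ?_⟩
  have ha' : Tendsto (fun n => (u n).1 - a) atTop (𝓝 0) := by
    have := ha.sub_const a
    rwa [sub_self] at this
  have hb' : Tendsto (fun n => (u n).2 - b) atTop (𝓝 0) := by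
    have := hb.sub_const b
    rwa [sub_self] at this
  have h3 : Tendsto (fun n => max ‖(u n).1 - a‖ ‖(u n).2 - b‖ +
      ‖((u n).1 - a) - ((u n).2 - b)‖ / r) atTop (𝓝 0) := by
    have h4 := (ha'.norm.max hb'.norm).add (((ha'.sub hb').norm).div_const r)
    simpa using h4
  exact h3

/-- the first component -/
def fstA [NormedAlgebra ℂ E] : PairA E r →ₐ[ℂ] E := AlgHom.fst ℂ E E

/-- the second component -/
def sndA [NormedAlgebra ℂ E] : PairA E r →ₐ[ℂ] E := AlgHom.snd ℂ E E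

theorem norm_mk (u v : E) : ‖(mk u v : PairA E r)‖ = max ‖u‖ ‖v‖ + ‖u - v‖ / r := rfl

theorem norm_mk_self (u : E) : ‖(mk u u : PairA E r)‖ = ‖u‖ := by
  rw [norm_mk, max_self, sub_self, norm_zero, zero_div, add_zero]

theorem norm_fstA_le [NormedAlgebra ℂ E] (x : PairA E r) : ‖fstA x‖ ≤ ‖x‖ := norm_fst_le x

theorem norm_sndA_le [NormedAlgebra ℂ E] (x : PairA E r) : ‖sndA x‖ ≤ ‖x‖ := norm_snd_le x

theorem norm_fstA_sub_sndA_le [NormedAlgebra ℂ E] (x : PairA E r) :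
    ‖fstA x - sndA x‖ ≤ r * ‖x‖ := norm_sub_le' x

omit hr in
@[simp] theorem fstA_mk [NormedAlgebra ℂ E] (u v : E) : fstA (mk u v : PairA E r) = u := rfl

omit hr in
@[simp] theorem sndA_mk [NormedAlgebra ℂ E] (u v : E) : sndA (mk u v : PairA E r) = v := rfl

end

end PairA

/-- **Automatic Lipschitz bound.** A family of maps `g E : E^n × E → E^m`, natural for contractive
homomorphisms of Banach algebras and bounded by `L ‖t‖` for arguments of norm at most `2 δ`, is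
Lipschitz in the first argument for arguments of norm at most `δ`. -/
theorem lip_of_natural {ι κ : Type} [Fintype ι] {δ L : ℝ} (hδ : 0 < δ)
    (g : ∀ (E : Type) [NormedCommRing E] [NormedAlgebra ℂ E] [NormOneClass E] [CompleteSpace E],
      (ι → E) → E → κ → E)
    (hnat : ∀ (E E' : Type) [NormedCommRing E] [NormedAlgebra ℂ E] [NormOneClass E]
      [CompleteSpace E] [NormedCommRing E'] [NormedAlgebra ℂ E'] [NormOneClass E']
      [CompleteSpace E'] (φ : E →ₐ[ℂ] E'), (∀ x, ‖φ x‖ ≤ ‖x‖) → ∀ (a : ι → E) (t : E),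
      (∀ i, ‖a i‖ ≤ 2 * δ) → ‖t‖ ≤ 2 * δ → ∀ k, g E' (fun i => φ (a i)) (φ t) k = φ (g E a t k))
    (hb : ∀ (E : Type) [NormedCommRing E] [NormedAlgebra ℂ E] [NormOneClass E]
      [CompleteSpace E] (a : ι → E) (t : E), (∀ i, ‖a i‖ ≤ 2 * δ) → ‖t‖ ≤ 2 * δ →
      ∀ k, ‖g E a t k‖ ≤ L * ‖t‖)
    (E : Type) [NormedCommRing E] [NormedAlgebra ℂ E] [NormOneClass E] [CompleteSpace E]
    (a a' : ι → E) (t : E) (ha : ∀ i, ‖a i‖ ≤ δ) (ha' : ∀ i, ‖a' i‖ ≤ δ) (ht : ‖t‖ ≤ δ) (k : κ) :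
    ‖g E a t k - g E a' t k‖ ≤ L / δ * ‖t‖ * ‖a - a'‖ := by
  rcases eq_or_ne a a' with rfl | hne
  · rw [sub_self, norm_zero, sub_self, norm_zero, mul_zero]
  have hd : 0 < ‖a - a'‖ := norm_pos_iff.2 (sub_ne_zero.2 hne)
  obtain ⟨r, hr⟩ : ∃ r : ℝ, r = ‖a - a'‖ / δ := ⟨_, rfl⟩
  have hr0 : 0 < r := by rw [hr]; positivity
  have _inst : Fact (0 < r) := ⟨hr0⟩
  obtain ⟨A, hA⟩ : ∃ A : ι → PairA E r, A = fun i => PairA.mk (a i) (a' i) := ⟨_, rfl⟩
  obtain ⟨T, hT⟩ : ∃ T : PairA E r, T = PairA.mk t t := ⟨_, rfl⟩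
  have hAn : ∀ i, ‖A i‖ ≤ 2 * δ := by
    intro i
    rw [hA]
    show ‖(PairA.mk (a i) (a' i) : PairA E r)‖ ≤ 2 * δ
    rw [PairA.norm_mk]
    have h1 : ‖a i - a' i‖ ≤ ‖a - a'‖ := norm_le_pi_norm (a - a') i
    have h2 : ‖a i - a' i‖ / r ≤ δ := by
      rw [div_le_iff₀ hr0, hr, mul_div_cancel₀ _ hδ.ne']
      exact h1
    have h3 : max ‖a i‖ ‖a' i‖ ≤ δ := max_le (ha i) (ha' i)
    linarith
  have hTn : ‖T‖ = ‖t‖ := by rw [hT, PairA.norm_mk_self]
  have hT2 : ‖T‖ ≤ 2 * δ := by rw [hTn]; linarith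
  have h1 := hnat (PairA E r) E PairA.fstA PairA.norm_fstA_le A T hAn hT2 k
  have h2 := hnat (PairA E r) E PairA.sndA PairA.norm_sndA_le A T hAn hT2 k
  have h3 := hb (PairA E r) A T hAn hT2 k
  have e1 : (fun i => PairA.fstA (A i)) = a := by rw [hA]; rfl
  have e2 : (fun i => PairA.sndA (A i)) = a' := by rw [hA]; rfl
  have e3 : PairA.fstA T = t := by rw [hT]; rfl
  have e4 : PairA.sndA T = t := by rw [hT]; rfl
  rw [e1, e3] at h1
  rw [e2, e4] at h2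
  rw [h1, h2]
  refine (PairA.norm_fstA_sub_sndA_le _).trans ?_
  calc r * ‖g (PairA E r) A T k‖ ≤ r * (L * ‖t‖) := by
        rw [← hTn]
        exact mul_le_mul_of_nonneg_left h3 hr0.le
    _ = L / δ * ‖t‖ * ‖a - a'‖ := by
        rw [hr]
        field_simp

end Pool.Agent.CampanaB
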