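import Pool.Agent.Lib_MP_1209e6_kc.U2

/-! The flow of a curve over a connected open set, during a locally bounded time. -/

set_option autoImplicit false

open Filter Topology Pool.Agent.CampanaFlow

namespace Pool.Agent.CampanaK

variable {S : Type} [CommRing S] [Algebra ℂ S] {D : Derivation ℂ S S}

/-- two curves over an open set which agree near each point off a third discrete set agree -/
theorem curve_agree {U : Set ℂ} {γ γ' : ℂ → S →ₐ[ℂ] ℂ} {B B' : Set ℂ}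
    (h : IsCurve U γ B) (h' : IsCurve U γ' B') {z : ℂ} (hz : z ∈ U) (hB : z ∉ B) (hB' : z ∉ B')
    (he : ∀ᶠ w in 𝓝[≠] z, γ w = γ' w) : γ z = γ' z := by
  apply AlgHom.ext
  intro f
  have h1 : Tendsto (fun w => γ w f) (𝓝[≠] z) (𝓝 (γ z f)) :=
    (h.ana f z hz hB).continuousAt.continuousWithinAt
  have h2 : Tendsto (fun w => γ' w f) (𝓝[≠] z) (𝓝 (γ' z f)) :=
    (h'.ana f z hz hB').continuousAt.continuousWithinAt
  refine tendsto_nhds_unique (h1.congr' ?_) h2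
  filter_upwards [he] with w hw
  rw [hw]

/-- `mstepU` on the connected open sets `V` with `w₀ ∈ V ⊆ U` over which the time is bounded, then
`glue_family`. -/
theorem flow_onU (cd : ChartData D) {U : Set ℂ} (hU : IsOpen U) (hc : IsPreconnected U)
    {γ : ℂ → S →ₐ[ℂ] ℂ} {B : Set ℂ} (hγ : IsCurve U γ B) (τ : ℂ → ℂ)
    (hτ : ∀ z ∈ U, AnalyticAt ℂ τ z)
    (hb : ∀ z ∈ U, ∃ C : ℝ, ∀ᶠ w in 𝓝 z, w ∉ B → ‖τ w‖ * cd.size (γ w) ≤ C)
    {w₀ : ℂ} (hw₀ : w₀ ∈ U) (hw₀B : w₀ ∉ B)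
    (he : ∀ᶠ w in 𝓝 w₀, ∃ q, IsFlow D (γ w) (τ w) q) :
    ∃ (γ' : ℂ → S →ₐ[ℂ] ℂ) (B' : Set ℂ), IsCurve U γ' B' ∧
      ∀ w ∈ U, w ∉ B → ∀ q, IsFlow D (γ w) (τ w) q → w ∉ B' ∧ γ' w = q := by
  classical
  let good : Set ℂ → Prop := fun V => IsOpen V ∧ IsPreconnected V ∧ w₀ ∈ V ∧ V ⊆ U ∧
    ∃ C : ℝ, ∀ w ∈ V, w ∉ B → ‖τ w‖ * cd.size (γ w) ≤ C
  -- union of two good sets
  have hgu : ∀ V V', good V → good V' → good (V ∪ V') := by
    rintro V V' ⟨h1, h2, h3, h4, C, h5⟩ ⟨k1, k2, k3, k4, C', k5⟩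
    refine ⟨h1.union k1, h2.union w₀ h3 k3 k2, Or.inl h3, Set.union_subset h4 k4,
      max C C', ?_⟩
    rintro w (hw | hw) hwB
    · exact (h5 w hw hwB).trans (le_max_left _ _)
    · exact (k5 w hw hwB).trans (le_max_right _ _)
  -- small discs with a bound
  have hball : ∀ z ∈ U, ∃ r : ℝ, 0 < r ∧ Metric.ball z r ⊆ U ∧
      ∃ C : ℝ, ∀ w ∈ Metric.ball z r, w ∉ B → ‖τ w‖ * cd.size (γ w) ≤ C := by
    intro z hz
    obtain ⟨C, hC⟩ := hb z hz
    obtain ⟨r, hr, hsub⟩ := Metric.eventually_nhds_iff_ball.1 (hC.and (hU.mem_nhds hz))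
    exact ⟨r, hr, fun w hw => (hsub w hw).2, C, fun w hw => (hsub w hw).1⟩
  -- every point is in a good set
  have hcov : ∀ z ∈ U, ∃ V, good V ∧ z ∈ V := by
    let u : Set ℂ := {z | ∃ V, good V ∧ z ∈ V}
    let v : Set ℂ := {z | z ∈ U ∧ ∃ r : ℝ, 0 < r ∧ ∀ w ∈ Metric.ball z r, w ∉ u}
    have hu : IsOpen u := by
      rw [isOpen_iff_mem_nhds]
      rintro z ⟨V, hV, hz⟩
      filter_upwards [hV.1.mem_nhds hz] with w hw
      exact ⟨V, hV, hw⟩
    have hv : IsOpen v := by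
      rw [isOpen_iff_mem_nhds]
      rintro z ⟨hz, r, hr, hz'⟩
      filter_upwards [hU.mem_nhds hz, Metric.ball_mem_nhds z hr] with w hw1 hw2
      obtain ⟨s, hs, hsub⟩ := Metric.isOpen_iff.1 Metric.isOpen_ball w hw2
      exact ⟨hw1, s, hs, fun y hy => hz' y (hsub hy)⟩
    have hUuv : U ⊆ u ∪ v := by
      intro z hz
      obtain ⟨r, hr, hsub, C, hC⟩ := hball z hz
      by_cases h : ∃ w ∈ Metric.ball z r, w ∈ u
      · left
        obtain ⟨w, hw, V, hV, hwV⟩ := h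
        refine ⟨V ∪ Metric.ball z r, ?_, Or.inr (Metric.mem_ball_self hr)⟩
        obtain ⟨h1, h2, h3, h4, C', h5⟩ := hV
        refine ⟨h1.union Metric.isOpen_ball, h2.union w hwV hw (convex_ball z r).isPreconnected,
          Or.inl h3, Set.union_subset h4 hsub, max C C', ?_⟩
        rintro y (hy | hy) hyB
        · exact (h5 y hy hyB).trans (le_max_right _ _)
        · exact (hC y hy hyB).trans (le_max_left _ _)
      · right
        push Not at h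
        exact ⟨hz, r, hr, h⟩
    have hw₀u : w₀ ∈ u := by
      obtain ⟨r, hr, hsub, C, hC⟩ := hball w₀ hw₀
      exact ⟨Metric.ball w₀ r, ⟨Metric.isOpen_ball, (convex_ball w₀ r).isPreconnected,
        Metric.mem_ball_self hr, hsub, C, hC⟩, Metric.mem_ball_self hr⟩
    intro z hz
    by_contra hcon
    have hzv : z ∈ v := by
      rcases hUuv hz with h | h
      · exact absurd h hcon
      · exact h
    obtain ⟨y, -, hy1, hy2⟩ := hc u v hu hv hUuv ⟨w₀, hw₀, hw₀u⟩ ⟨z, hz, hzv⟩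
    obtain ⟨-, r, hr, hy3⟩ := hy2
    exact hy3 y (Metric.mem_ball_self hr) hy1
  -- the curves over the good sets
  have hex : ∀ V : {V // good V}, ∃ (γ' : ℂ → S →ₐ[ℂ] ℂ) (B' : Set ℂ),
      IsCurve V.1 γ' B' ∧ B ⊆ B' ∧
      ∀ z ∈ V.1, z ∉ B → ∀ q, IsFlow D (γ z) (τ z) q → z ∉ B' ∧ γ' z = q := by
    rintro ⟨V, h1, h2, h3, h4, C, h5⟩
    obtain ⟨k, hk⟩ := exists_nat_ge (4 * C)
    refine mstepU h1 h2 h3 (IsCurve.mono h4 hγ) cd τ
      (fun z hz => hτ z (h4 hz)) (k + 1) (Nat.succ_pos k) ?_ hw₀B he.self_of_nhds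
    intro z hz hzB
    refine (h5 z hz hzB).trans ?_
    push_cast
    linarith
  choose γn Bn hcurve _ hflow using hex
  have hB0 : ∀ᶠ w in 𝓝 w₀, w ∉ B := evt_not_mem hγ hw₀ hw₀B
  have hnB : ∀ V : {V // good V}, w₀ ∉ Bn V := by
    intro V
    obtain ⟨q, hq⟩ := he.self_of_nhds
    exact (hflow V w₀ V.2.2.2.1 hw₀B q hq).1
  have hnear : ∀ V V' : {V // good V}, ∀ᶠ w in 𝓝 w₀, γn V w = γn V' w := by
    intro V V'
    filter_upwards [hB0, he, V.2.1.mem_nhds V.2.2.2.1, V'.2.1.mem_nhds V'.2.2.2.1]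
      with w h1 h2 h3 h4
    obtain ⟨q, hq⟩ := h2
    rw [(hflow V w h3 h1 q hq).2, (hflow V' w h4 h1 q hq).2]
  have hun : ∀ V V' : {V // good V}, V.1 ⊆ V'.1 → ∀ z ∈ V.1, z ∉ Bn V → z ∉ Bn V' →
      γn V z = γn V' z := by
    intro V V' hVV' z hz h1 h2
    exact curve_eq V.2.1 V.2.2.1 (hcurve V) (IsCurve.mono hVV' (hcurve V')) V.2.2.2.1 (hnB V)
      (hnB V') (hnear V V') z hz h1 h2
  obtain ⟨γ', B', hc', hglue⟩ := glue_family (fun V : {V // good V} => V.1) (fun V => V.2.1)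
    γn Bn hcurve (γ w₀) (by
      intro V V' z hz hz' h1 h2
      let V3 : {V // good V} := ⟨V.1 ∪ V'.1, hgu _ _ V.2 V'.2⟩
      have hVi : IsOpen (V.1 ∩ V'.1) := V.2.1.inter V'.2.1
      refine curve_agree (U := V.1 ∩ V'.1) (IsCurve.mono Set.inter_subset_left (hcurve V))
        (IsCurve.mono Set.inter_subset_right (hcurve V')) ⟨hz, hz'⟩ h1 h2 ?_
      have d3 := (hcurve V3).disc z (Or.inl hz)
      have d1 := (hcurve V).disc z hz
      have d2 := (hcurve V').disc z hz'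
      filter_upwards [d1, d2, d3, mem_nhdsWithin_of_mem_nhds (hVi.mem_nhds ⟨hz, hz'⟩)]
        with w k1 k2 k3 k4
      rw [hun V V3 Set.subset_union_left w k4.1 k1 k3,
        hun V' V3 Set.subset_union_right w k4.2 k2 k3])
  have hVun : ⋃ V : {V // good V}, V.1 = U := by
    refine Set.Subset.antisymm (Set.iUnion_subset fun V => V.2.2.2.2.1) ?_
    intro z hz
    obtain ⟨V, hV, hzV⟩ := hcov z hz
    exact Set.mem_iUnion.2 ⟨⟨V, hV⟩, hzV⟩
  rw [hVun] at hc'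
  refine ⟨γ', B', hc', ?_⟩
  intro w hw hwB q hq
  obtain ⟨V, hV, hwV⟩ := hcov w hw
  obtain ⟨h1, h2⟩ := hflow ⟨V, hV⟩ w hwV hwB q hq
  obtain ⟨h3, h4⟩ := hglue ⟨V, hV⟩ w hwV h1
  exact ⟨h3, h4.trans h2⟩

end Pool.Agent.CampanaK
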