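import Pool.Agent.Lib_MP_1209e6_kc.U2

/-! The flow of a curve over a convex open set, during a time which is unbounded at infinity. -/

set_option autoImplicit false

open Filter Topology Pool.Agent.CampanaFlow

namespace Pool.Agent.CampanaK

variable {S : Type} [CommRing S] [Algebra ℂ S] {D : Derivation ℂ S S}

/-- `mstepU` on the bounded convex sets `U ∩ ball 0 (n + 1 + ‖w₀‖)`, then `glue_mono`. -/
theorem flow_on (cd : ChartData D) {U : Set ℂ} (hU : IsOpen U) (hconv : Convex ℝ U)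
    {γ : ℂ → S →ₐ[ℂ] ℂ} {B : Set ℂ} (hγ : IsCurve U γ B) (τ : ℂ → ℂ)
    (hτ : ∀ z ∈ U, AnalyticAt ℂ τ z)
    (hb : ∀ R : ℝ, ∃ C : ℝ, ∀ w ∈ U, ‖w‖ < R → w ∉ B → ‖τ w‖ * cd.size (γ w) ≤ C)
    {w₀ : ℂ} (hw₀ : w₀ ∈ U) (hw₀B : w₀ ∉ B)
    (he : ∀ᶠ w in 𝓝 w₀, ∃ q, IsFlow D (γ w) (τ w) q) :
    ∃ (γ' : ℂ → S →ₐ[ℂ] ℂ) (B' : Set ℂ), IsCurve U γ' B' ∧
      ∀ w ∈ U, w ∉ B → ∀ q, IsFlow D (γ w) (τ w) q → w ∉ B' ∧ γ' w = q := by
  let V : ℕ → Set ℂ := fun n => U ∩ Metric.ball 0 ((n : ℝ) + 1 + ‖w₀‖)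
  have hVU : ∀ n, V n ⊆ U := fun n => Set.inter_subset_left
  have hVo : ∀ n, IsOpen (V n) := fun n => hU.inter Metric.isOpen_ball
  have hVc : ∀ n, IsPreconnected (V n) := fun n =>
    (hconv.inter (convex_ball _ _)).isPreconnected
  have hVm : Monotone V := by
    intro n m hnm
    refine Set.inter_subset_inter_right _ (Metric.ball_subset_ball ?_)
    have : (n : ℝ) ≤ m := Nat.cast_le.2 hnm
    linarith
  have hV0 : ∀ n, w₀ ∈ V n := by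
    intro n
    refine ⟨hw₀, ?_⟩
    rw [mem_ball_zero_iff]
    have : (0 : ℝ) ≤ n := Nat.cast_nonneg n
    linarith
  have hVun : ⋃ n, V n = U := by
    refine Set.Subset.antisymm (Set.iUnion_subset hVU) ?_
    intro z hz
    obtain ⟨n, hn⟩ := exists_nat_ge ‖z‖
    refine Set.mem_iUnion.2 ⟨n, hz, ?_⟩
    rw [mem_ball_zero_iff]
    have := norm_nonneg w₀
    linarith
  have hex : ∀ n : ℕ, ∃ (γ' : ℂ → S →ₐ[ℂ] ℂ) (B' : Set ℂ),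
      IsCurve (V n) γ' B' ∧ B ⊆ B' ∧
      ∀ z ∈ V n, z ∉ B → ∀ q, IsFlow D (γ z) (τ z) q → z ∉ B' ∧ γ' z = q := by
    intro n
    obtain ⟨C, hC⟩ := hb ((n : ℝ) + 1 + ‖w₀‖)
    obtain ⟨k, hk⟩ := exists_nat_ge (4 * C)
    refine mstepU (hVo n) (hVc n) (hV0 n) (IsCurve.mono (hVU n) hγ) cd τ
      (fun z hz => hτ z (hVU n hz)) (k + 1) (Nat.succ_pos k) ?_ hw₀B he.self_of_nhds
    intro z hz hzB
    refine (hC z hz.1 (mem_ball_zero_iff.1 hz.2) hzB).trans ?_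
    push_cast
    linarith
  choose γn Bn hcurve _ hflow using hex
  have hnear : ∀ᶠ w in 𝓝 w₀, ∃ q, ∀ n : ℕ, w ∉ Bn n ∧ γn n w = q := by
    have e1 : ∀ᶠ w in 𝓝 w₀, w ∉ B := evt_not_mem hγ hw₀ hw₀B
    have e4 : ∀ᶠ w in 𝓝 w₀, w ∈ V 0 := (hVo 0).mem_nhds (hV0 0)
    filter_upwards [e1, he, e4] with w h1 h2 h4
    obtain ⟨q, hq⟩ := h2
    exact ⟨q, fun n => hflow n w (hVm (Nat.zero_le n) h4) h1 q hq⟩
  have h0' : ∀ n, w₀ ∉ Bn n := by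
    obtain ⟨q, hq⟩ := hnear.self_of_nhds
    exact fun n => (hq n).1
  have he' : ∀ n m, ∀ᶠ w in 𝓝 w₀, γn n w = γn m w := by
    intro n m
    filter_upwards [hnear] with w hw
    obtain ⟨q, hq⟩ := hw
    rw [(hq n).2, (hq m).2]
  obtain ⟨γ', B', hc', hglue⟩ := glue_mono V hVm hVo hVc γn Bn hcurve (hV0 0) h0' he'
  rw [hVun] at hc'
  refine ⟨γ', B', hc', ?_⟩
  intro w hw hwB q hq
  rw [← hVun] at hw
  obtain ⟨n, hn⟩ := Set.mem_iUnion.1 hw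
  obtain ⟨h1, h2⟩ := hflow n w hn hwB q hq
  obtain ⟨h3, h4⟩ := hglue n w hn h1
  exact ⟨h3, h4.trans h2⟩

end Pool.Agent.CampanaK
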