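import Pool.Agent.Lib_MP_1209e6_kc.BFlow

/-! Growth of the values of all words of derivations, at points with values in a Banach algebra. -/

set_option autoImplicit false

open Filter Topology Pool.Agent.CampanaFlow

namespace Pool.Agent.CampanaB

variable {S : Type} [CommRing S] [Algebra ℂ S]

/-- Growth of words of derivations applied to a polynomial `p` in the coordinates. -/
theorem grow_word {σ ι : Type} [Fintype σ] [DecidableEq σ] (y : σ → S) (d : ι → Derivation ℂ S S)
    (P : ι → σ → MvPolynomial σ ℂ)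
    (hP : ∀ a i, d a (y i) = MvPolynomial.aeval y (P a i)) (δ : ℕ)
    (hδ : ∀ a i, (P a i).totalDegree ≤ δ + 1) (w : σ → ℝ) (hw1 : ∀ i, 1 ≤ w i)
    (A : ℝ) (hA : ∀ a i, f3nu w (P a i) ≤ A) (hA0 : 0 ≤ A) (p : MvPolynomial σ ℂ) (l : List ι) :
    ∃ p' : MvPolynomial σ ℂ, word d l (MvPolynomial.aeval y p) = MvPolynomial.aeval y p' ∧
      F3deg (fun _ => 1) p' (p.totalDegree + l.length * δ) ∧
      f3nu w p' ≤ f3nu w p * 2 ^ (p.totalDegree + l.length) * l.length.factorial *
        ((1 + δ) * A) ^ l.length := by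
  have hw0 : ∀ i, 0 ≤ w i := fun i => zero_le_one.trans (hw1 i)
  have hdeg : ∀ p : MvPolynomial σ ℂ, F3deg (fun _ => 1) p p.totalDegree := by
    intro p s hs
    have h1 := MvPolynomial.le_totalDegree hs
    rw [Finsupp.sum_fintype _ _ (fun _ => rfl)] at h1
    simpa using h1
  -- sharper bound with a rising factorial
  have key : ∀ l : List ι, ∃ p' : MvPolynomial σ ℂ,
      word d l (MvPolynomial.aeval y p) = MvPolynomial.aeval y p' ∧
      F3deg (fun _ => 1) p' (p.totalDegree + l.length * δ) ∧
      f3nu w p' ≤ f3nu w p * ((p.totalDegree + l.length).choose l.length * l.length.factorial) *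
        ((1 + δ) * A) ^ l.length := by
    intro l
    induction l with
    | nil =>
      refine ⟨p, rfl, by simpa using hdeg p, ?_⟩
      simp
    | cons a l ih =>
      obtain ⟨p', h1, h2, h3⟩ := ih
      refine ⟨MvPolynomial.mkDerivation ℂ (P a) p', ?_, ?_, ?_⟩
      · show d a (word d l _) = _
        rw [h1, f3_aeval y (d a) (P a) (hP a)]
      · have h4 := f3deg_der (P a) (fun _ => 1) (fun i h => absurd h one_ne_zero)
          (fun _ => le_refl 1) δ (fun i s hs => (hdeg (P a i) s hs).trans (hδ a i)) p' _ h2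
        have h5 : p.totalDegree + l.length * δ + δ = p.totalDegree + (a :: l).length * δ := by
          rw [List.length_cons]; ring
        rwa [h5] at h4
      · refine (f3nu_der (P a) (fun _ => 1) (fun i h => absurd h one_ne_zero)
          (fun _ => le_refl 1) w hw0 (fun i _ => hw1 i) A (hA a) p' _ h2 hA0).trans ?_
        rw [List.length_cons]
        have h4 : ((p.totalDegree + l.length * δ : ℕ) : ℝ) ≤
            (1 + δ) * (p.totalDegree + l.length + 1) := by
          push_cast
          have : (0 : ℝ) ≤ δ := Nat.cast_nonneg _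
          have : (0 : ℝ) ≤ l.length := Nat.cast_nonneg _
          have : (0 : ℝ) ≤ p.totalDegree := Nat.cast_nonneg _
          nlinarith [mul_nonneg (Nat.cast_nonneg (α := ℝ) δ) (Nat.cast_nonneg (α := ℝ) p.totalDegree)]
        have h6 : ((p.totalDegree + l.length + 1 : ℕ) : ℝ) *
            ((p.totalDegree + l.length).choose l.length * l.length.factorial) =
            (p.totalDegree + (l.length + 1)).choose (l.length + 1) * (l.length + 1).factorial := by
          have h7 := Nat.add_one_mul_choose_eq (p.totalDegree + l.length) l.length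
          have h8 : p.totalDegree + (l.length + 1) = p.totalDegree + l.length + 1 := by ring
          rw [h8, Nat.factorial_succ]
          have h9 : ((p.totalDegree + l.length + 1 : ℕ) : ℝ) *
              ((p.totalDegree + l.length).choose l.length : ℕ) =
              ((p.totalDegree + l.length + 1).choose (l.length + 1) : ℕ) * ((l.length + 1 : ℕ) : ℝ) := by
            exact_mod_cast h7
          rw [← mul_assoc, h9]
          push_cast
          ring
        have hν := f3nu_nonneg w hw0 p
        calc ((p.totalDegree + l.length * δ : ℕ) : ℝ) * A * f3nu w p'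
            ≤ ((1 + δ) * (p.totalDegree + l.length + 1)) * A *
              (f3nu w p * ((p.totalDegree + l.length).choose l.length * l.length.factorial) *
                ((1 + δ) * A) ^ l.length) := by
              apply mul_le_mul (mul_le_mul_of_nonneg_right h4 hA0) h3 (f3nu_nonneg w hw0 _)
              positivity
          _ = f3nu w p * (((p.totalDegree + l.length + 1 : ℕ) : ℝ) *
              ((p.totalDegree + l.length).choose l.length * l.length.factorial)) *
                ((1 + δ) * A) ^ (l.length + 1) := by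
              push_cast
              ring
          _ = _ := by rw [h6]
  obtain ⟨p', h1, h2, h3⟩ := key l
  refine ⟨p', h1, h2, h3.trans ?_⟩
  have h4 : ((p.totalDegree + l.length).choose l.length : ℝ) ≤ 2 ^ (p.totalDegree + l.length) := by
    exact_mod_cast Nat.choose_le_two_pow (p.totalDegree + l.length) l.length
  have hν := f3nu_nonneg w hw0 p
  calc f3nu w p * ((p.totalDegree + l.length).choose l.length * l.length.factorial) *
        ((1 + δ) * A) ^ l.length
      ≤ f3nu w p * (2 ^ (p.totalDegree + l.length) * l.length.factorial) *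
        ((1 + δ) * A) ^ l.length := by gcongr
    _ = _ := by ring

/-- the value at a Banach algebra valued point is bounded by the weighted norm -/
theorem norm_aeval_le {σ : Type} [Fintype σ] {W : Type} [NormedCommRing W] [NormedAlgebra ℂ W]
    [NormOneClass W] (y : σ → S) (q : S →ₐ[ℂ] W) (w : σ → ℝ) (hw : ∀ i, ‖q (y i)‖ ≤ w i)
    (p : MvPolynomial σ ℂ) : ‖q (MvPolynomial.aeval y p)‖ ≤ f3nu w p := by
  have h4 : q (MvPolynomial.aeval y p) = ∑ s ∈ p.support, p.coeff s • ∏ j, q (y j) ^ s j := by
    rw [MvPolynomial.aeval_def, MvPolynomial.eval₂_eq', map_sum]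
    refine Finset.sum_congr rfl fun s _ => ?_
    rw [map_mul, AlgHom.commutes, map_prod, Algebra.smul_def]
    simp
  rw [h4]
  refine (norm_sum_le _ _).trans ?_
  unfold f3nu
  refine Finset.sum_le_sum fun s _ => ?_
  rw [norm_smul]
  apply mul_le_mul_of_nonneg_left _ (norm_nonneg _)
  refine (Finset.norm_prod_le _ _).trans ?_
  refine Finset.prod_le_prod (fun j _ => norm_nonneg _) fun j _ => ?_
  refine (norm_pow_le _ _).trans ?_
  exact pow_le_pow_left₀ (norm_nonneg _) (hw j) _

/-- **Uniform growth**: for finitely many derivations of a finitely generated algebra and a bound `M`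
for the generators there is `K` such that all words of length `n` have value at most `C_f n! K ^ n`
at each Banach algebra valued point bounded by `M` on the generators. -/
theorem unif_grow {ι : Type} [Finite ι] (d : ι → Derivation ℂ S S) (G : Finset S)
    (hG : Algebra.adjoin ℂ (G : Set S) = ⊤) (M : ℝ) :
    ∃ K : ℝ, 0 < K ∧ ∀ f : S, ∃ C : ℝ, 0 ≤ C ∧
      ∀ (W : Type) [NormedCommRing W] [NormedAlgebra ℂ W] [NormOneClass W] (q : S →ₐ[ℂ] W),
        (∀ g ∈ G, ‖q g‖ ≤ M) → ∀ l : List ι, ‖q (word d l f)‖ ≤ C * l.length.factorial * K ^ l.length := by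
  classical
  have _inst := Fintype.ofFinite ι
  have hrange : Set.range (Subtype.val : {x // x ∈ G} → S) = (G : Set S) := by
    ext x; simp
  have hex : ∀ f : S, ∃ p : MvPolynomial {x // x ∈ G} ℂ,
      f = MvPolynomial.aeval (Subtype.val : {x // x ∈ G} → S) p := by
    intro f
    have h1 : f ∈ Algebra.adjoin ℂ (Set.range (Subtype.val : {x // x ∈ G} → S)) := by
      rw [hrange, hG]; trivial
    rw [Algebra.adjoin_range_eq_range_aeval] at h1
    obtain ⟨p, hp⟩ := h1
    exact ⟨p, hp.symm⟩
  choose Q hQ using hex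
  obtain ⟨w0, hw⟩ : ∃ w0 : ℝ, w0 = max M 1 := ⟨_, rfl⟩
  have hw1 : 1 ≤ w0 := hw ▸ le_max_right _ _
  have hwM : M ≤ w0 := hw ▸ le_max_left _ _
  obtain ⟨w, hwd⟩ : ∃ w : {x // x ∈ G} → ℝ, w = fun _ => w0 := ⟨_, rfl⟩
  have hw0 : ∀ i, 0 ≤ w i := fun i => by rw [hwd]; linarith
  let P : ι → {x // x ∈ G} → MvPolynomial {x // x ∈ G} ℂ := fun a i => Q (d a i)
  obtain ⟨δ, hδ⟩ : ∃ δ : ℕ, δ = ∑ a, ∑ i, (P a i).totalDegree := ⟨_, rfl⟩
  obtain ⟨A, hA⟩ : ∃ A : ℝ, A = ∑ a, ∑ i, f3nu w (P a i) := ⟨_, rfl⟩
  have hν : ∀ a i, 0 ≤ f3nu w (P a i) := fun a i => f3nu_nonneg w hw0 _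
  have hA0 : 0 ≤ A := hA ▸ Finset.sum_nonneg fun a _ => Finset.sum_nonneg fun i _ => hν a i
  have hAle : ∀ a i, f3nu w (P a i) ≤ A := by
    intro a i
    rw [hA]
    refine le_trans ?_ (Finset.single_le_sum (f := fun a => ∑ i, f3nu w (P a i))
      (fun a _ => Finset.sum_nonneg fun i _ => hν a i) (Finset.mem_univ a))
    exact Finset.single_le_sum (f := fun i => f3nu w (P a i)) (fun i _ => hν a i) (Finset.mem_univ i)
  have hδle : ∀ a i, (P a i).totalDegree ≤ δ + 1 := by
    intro a i
    have h1 : (P a i).totalDegree ≤ δ := by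
      rw [hδ]
      refine le_trans ?_ (Finset.single_le_sum (f := fun a => ∑ i, (P a i).totalDegree)
        (fun a _ => Nat.zero_le _) (Finset.mem_univ a))
      exact Finset.single_le_sum (f := fun i => (P a i).totalDegree) (fun i _ => Nat.zero_le _)
        (Finset.mem_univ i)
    omega
  refine ⟨2 * ((1 + δ) * A) + 1, by positivity, fun f => ?_⟩
  have hνf := f3nu_nonneg w hw0 (Q f)
  refine ⟨f3nu w (Q f) * 2 ^ (Q f).totalDegree, by positivity, ?_⟩
  intro W _ _ _ q hq l
  obtain ⟨p', h1, -, h3⟩ := grow_word (Subtype.val : {x // x ∈ G} → S) d P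
    (fun a i => hQ (d a i)) δ hδle w (fun i => by rw [hwd]; exact hw1) A hAle hA0 (Q f) l
  rw [← hQ f] at h1
  rw [h1]
  refine (norm_aeval_le _ q w (fun i => ?_) p').trans (h3.trans ?_)
  · rw [hwd]
    exact (hq _ i.2).trans hwM
  · have h5 : (2 * ((1 + (δ : ℝ)) * A)) ^ l.length ≤ (2 * ((1 + δ) * A) + 1) ^ l.length :=
      pow_le_pow_left₀ (by positivity) (by linarith) _
    calc f3nu w (Q f) * 2 ^ ((Q f).totalDegree + l.length) * l.length.factorial *
          ((1 + δ) * A) ^ l.length
        = f3nu w (Q f) * 2 ^ (Q f).totalDegree * l.length.factorial *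
          (2 * ((1 + δ) * A)) ^ l.length := by
          rw [mul_pow (2 : ℝ) ((1 + (δ : ℝ)) * A), pow_add]; ring
      _ ≤ _ := by gcongr

end Pool.Agent.CampanaB
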