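import Pool.Agent.Lib_MP_1209e6_fl.F1
import Pool.Agent.Lib_MP_1209e6_fl.F3

/-! Flows of derivations on points with values in a commutative complex Banach algebra `W`. -/

set_option autoImplicit false

open Filter Topology Pool.Agent.CampanaFlow

namespace Pool.Agent.CampanaB

variable {S : Type} [CommRing S] [Algebra ℂ S]
variable {W : Type} [NormedCommRing W] [NormedAlgebra ℂ W] [NormOneClass W] [CompleteSpace W]
variable {D : Derivation ℂ S S} {q q' q'' : S →ₐ[ℂ] W} {t : W} {f g : S}

/-- `n`-th Taylor coefficient of `exp (t D) f` at the `W`-valued point `q` -/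
noncomputable def tcW (D : Derivation ℂ S S) (q : S →ₐ[ℂ] W) (f : S) (n : ℕ) : W :=
  ((n.factorial : ℂ)⁻¹) • q (D^[n] f)

/-- the series `q (exp (t D) f)` converges absolutely -/
def ConvW (D : Derivation ℂ S S) (q : S →ₐ[ℂ] W) (t : W) (f : S) : Prop :=
  Summable fun n => ‖tcW D q f n‖ * ‖t‖ ^ n

/-- the element `q (exp (t D) f)` of `W` -/
noncomputable def evW (D : Derivation ℂ S S) (q : S →ₐ[ℂ] W) (t : W) (f : S) : W :=
  ∑' n, tcW D q f n * t ^ n

/-- `q' = q ∘ exp (t D)`, where everything converges -/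
def IsFlowW (D : Derivation ℂ S S) (q : S →ₐ[ℂ] W) (t : W) (q' : S →ₐ[ℂ] W) : Prop :=
  ∀ f, ConvW D q t f ∧ q' f = evW D q t f

omit [NormOneClass W] [CompleteSpace W] in
theorem tcW_mul (n : ℕ) : tcW D q (f * g) n =
    ∑ ij ∈ Finset.HasAntidiagonal.antidiagonal n, tcW D q f ij.1 * tcW D q g ij.2 := by
  unfold tcW
  rw [iterate_leibniz, map_sum, Finset.smul_sum]
  refine Finset.sum_congr rfl fun ij hij => ?_
  have hn : ij.1 + ij.2 = n := Finset.HasAntidiagonal.mem_antidiagonal.1 hij
  rw [map_mul, map_mul, map_natCast, smul_mul_smul_comm]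
  have h1 : ((n.choose ij.1 : ℕ) : ℂ) * (ij.1.factorial * ij.2.factorial) = n.factorial := by
    have h := Nat.add_choose_mul_factorial_mul_factorial ij.2 ij.1
    rw [add_comm ij.2 ij.1, hn] at h
    rw [← h]
    push_cast
    ring
  have h2 : ((ij.1.factorial : ℕ) : ℂ) ≠ 0 := by exact_mod_cast ij.1.factorial_ne_zero
  have h3 : ((ij.2.factorial : ℕ) : ℂ) ≠ 0 := by exact_mod_cast ij.2.factorial_ne_zero
  have h4 : ((n.factorial : ℕ) : ℂ) ≠ 0 := by exact_mod_cast n.factorial_ne_zero
  have h5 : ((n.choose ij.1 : ℕ) : W) = ((n.choose ij.1 : ℕ) : ℂ) • (1 : W) := by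
    rw [← Algebra.algebraMap_eq_smul_one, map_natCast]
  rw [h5, smul_mul_assoc, one_mul, smul_smul]
  congr 1
  rw [← h1]
  have h6 : ((n.choose ij.1 : ℕ) : ℂ) ≠ 0 := by
    intro h
    rw [h, zero_mul] at h1
    exact h4 h1.symm
  field_simp

omit [NormOneClass W] [CompleteSpace W] in
theorem tcW_add (n : ℕ) : tcW D q (f + g) n = tcW D q f n + tcW D q g n := by
  unfold tcW
  rw [iterate_map_add, map_add, smul_add]

omit [NormOneClass W] [CompleteSpace W] in
theorem convW_add (hf : ConvW D q t f) (hg : ConvW D q t g) : ConvW D q t (f + g) := by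
  unfold ConvW at *
  refine Summable.of_nonneg_of_le (fun n => by positivity) (fun n => ?_) (hf.add hg)
  rw [tcW_add, ← add_mul]
  exact mul_le_mul_of_nonneg_right (norm_add_le _ _) (by positivity)

omit [CompleteSpace W] in
theorem norm_term_le (n : ℕ) : ‖tcW D q f n * t ^ n‖ ≤ ‖tcW D q f n‖ * ‖t‖ ^ n :=
  (norm_mul_le _ _).trans (mul_le_mul_of_nonneg_left (norm_pow_le t n) (norm_nonneg _))

omit [CompleteSpace W] in
theorem summ_norm (hf : ConvW D q t f) : Summable fun n => ‖tcW D q f n * t ^ n‖ :=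
  Summable.of_nonneg_of_le (fun _ => norm_nonneg _) (fun n => norm_term_le n) hf

omit [NormOneClass W] [CompleteSpace W] in
theorem convW_mul (hf : ConvW D q t f) (hg : ConvW D q t g) : ConvW D q t (f * g) := by
  have hf' : Summable fun n => ‖(‖tcW D q f n‖ * ‖t‖ ^ n : ℝ)‖ := by
    refine hf.congr fun n => ?_
    rw [Real.norm_of_nonneg (by positivity)]
  have hg' : Summable fun n => ‖(‖tcW D q g n‖ * ‖t‖ ^ n : ℝ)‖ := by
    refine hg.congr fun n => ?_
    rw [Real.norm_of_nonneg (by positivity)]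
  have h := (summable_norm_sum_mul_antidiagonal_of_summable_norm hf' hg')
  refine Summable.of_nonneg_of_le (fun n => by positivity) (fun n => ?_) h
  rw [Real.norm_of_nonneg (Finset.sum_nonneg fun _ _ => by positivity), tcW_mul]
  calc ‖∑ ij ∈ Finset.HasAntidiagonal.antidiagonal n, tcW D q f ij.1 * tcW D q g ij.2‖ * ‖t‖ ^ n
      ≤ (∑ ij ∈ Finset.HasAntidiagonal.antidiagonal n, ‖tcW D q f ij.1‖ * ‖tcW D q g ij.2‖) *
          ‖t‖ ^ n := by
        refine mul_le_mul_of_nonneg_right ((norm_sum_le _ _).trans ?_) (by positivity)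
        exact Finset.sum_le_sum fun ij _ => norm_mul_le _ _
    _ = _ := by
        rw [Finset.sum_mul]
        refine Finset.sum_congr rfl fun kl hkl => ?_
        rw [← Finset.HasAntidiagonal.mem_antidiagonal.1 hkl, pow_add]
        ring

omit [NormOneClass W] [CompleteSpace W] in
theorem coefW (n : ℕ) : ∑ kl ∈ Finset.HasAntidiagonal.antidiagonal n,
    tcW D q f kl.1 * t ^ kl.1 * (tcW D q g kl.2 * t ^ kl.2) = tcW D q (f * g) n * t ^ n := by
  rw [tcW_mul, Finset.sum_mul]
  refine Finset.sum_congr rfl fun kl hkl => ?_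
  rw [← Finset.HasAntidiagonal.mem_antidiagonal.1 hkl, pow_add]
  ring

omit [NormOneClass W] [CompleteSpace W] in
theorem tcW_zero : tcW D q f 0 = q f := by
  simp [tcW]

omit [NormOneClass W] [CompleteSpace W] in
theorem tcW_const (h : D f = 0) {n : ℕ} (hn : n ≠ 0) : tcW D q f n = 0 := by
  obtain ⟨m, rfl⟩ := Nat.exists_eq_succ_of_ne_zero hn
  unfold tcW
  rw [Function.iterate_succ_apply, h]
  have h1 : D^[m] (0 : S) = 0 := by
    clear hn
    induction m with
    | zero => rfl
    | succ m ih => rw [Function.iterate_succ_apply, map_zero, ih]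
  rw [h1, map_zero, smul_zero]

omit [NormOneClass W] [CompleteSpace W] in
theorem convW_const (h : D f = 0) : ConvW D q t f := by
  unfold ConvW
  refine summable_of_ne_finset_zero (s := {0}) fun n hn => ?_
  rw [tcW_const h (by simpa using hn), norm_zero, zero_mul]

omit [NormOneClass W] [CompleteSpace W] in
theorem evW_const (h : D f = 0) : evW D q t f = q f := by
  unfold evW
  rw [tsum_eq_single 0 (fun n hn => by rw [tcW_const h hn, zero_mul])]
  rw [tcW_zero, pow_zero, mul_one]

omit [NormOneClass W] [CompleteSpace W] in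
theorem convW_adjoin {s : Set S} (h : ∀ f ∈ s, ConvW D q t f) :
    ∀ f ∈ Algebra.adjoin ℂ s, ConvW D q t f := by
  intro f hf
  induction hf using Algebra.adjoin_induction with
  | mem x hx => exact h x hx
  | algebraMap r => exact convW_const (D.map_algebraMap r)
  | add x y _ _ hx hy => exact convW_add hx hy
  | mul x y _ _ hx hy => exact convW_mul hx hy

theorem evW_add (hf : ConvW D q t f) (hg : ConvW D q t g) :
    evW D q t (f + g) = evW D q t f + evW D q t g := by
  unfold evW
  rw [← (summ_norm hf).of_norm.tsum_add (summ_norm hg).of_norm]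
  refine tsum_congr fun n => ?_
  rw [tcW_add]
  ring

theorem evW_mul (hf : ConvW D q t f) (hg : ConvW D q t g) :
    evW D q t (f * g) = evW D q t f * evW D q t g := by
  unfold evW
  rw [tsum_mul_tsum_eq_tsum_sum_antidiagonal_of_summable_norm (summ_norm hf) (summ_norm hg)]
  exact tsum_congr fun n => (coefW n).symm

omit [NormOneClass W] [CompleteSpace W] in
theorem IsFlowW.unique (h : IsFlowW D q t q') (h' : IsFlowW D q t q'') : q' = q'' := by
  ext f
  rw [(h f).2, (h' f).2]

theorem exists_isFlowW (h : ∀ f, ConvW D q t f) : ∃ q', IsFlowW D q t q' := by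
  have hc : ∀ c : ℂ, evW D q t (algebraMap ℂ S c) = algebraMap ℂ W c := fun c => by
    rw [evW_const (D.map_algebraMap c)]
    exact q.commutes c
  have h1 : evW D q t 1 = 1 := by
    have h1 := hc 1
    rwa [map_one, map_one] at h1
  have h0 : evW D q t 0 = 0 := by
    have h1 := hc 0
    rwa [map_zero, map_zero] at h1
  let φ : S →+* W :=
    { toFun := evW D q t
      map_one' := h1
      map_mul' := fun f g => evW_mul (h f) (h g)
      map_zero' := h0
      map_add' := fun f g => evW_add (h f) (h g) }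
  exact ⟨{ φ with commutes' := fun c => hc c }, fun f => ⟨h f, rfl⟩⟩

/-- functoriality -/
theorem IsFlowW.map {W' : Type} [NormedCommRing W'] [NormedAlgebra ℂ W'] [NormOneClass W']
    [CompleteSpace W'] (φ : W →ₐ[ℂ] W') (hφ : ∀ x, ‖φ x‖ ≤ ‖x‖)
    (h : IsFlowW D q t q') : IsFlowW D (φ.comp q) (φ t) (φ.comp q') := by
  have htc : ∀ f n, tcW D (φ.comp q) f n = φ (tcW D q f n) := by
    intro f n
    unfold tcW
    rw [map_smul]
    rfl
  have hcont : Continuous φ :=
    AddMonoidHomClass.continuous_of_bound φ 1 fun x => by rw [one_mul]; exact hφ x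
  intro f
  obtain ⟨h1, h2⟩ := h f
  refine ⟨?_, ?_⟩
  · refine Summable.of_nonneg_of_le (fun n => by positivity) (fun n => ?_) h1
    rw [htc]
    exact mul_le_mul (hφ _) (pow_le_pow_left₀ (norm_nonneg _) (hφ t) n) (by positivity)
      (norm_nonneg _)
  · show φ (q' f) = _
    rw [h2]
    unfold evW
    have h3 := ((summ_norm h1).of_norm.hasSum.map φ hcont).tsum_eq
    rw [← h3]
    refine tsum_congr fun n => ?_
    show φ (tcW D q f n * t ^ n) = _
    rw [map_mul, map_pow, htc]

/-- the case `W = ℂ` -/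
theorem IsFlowW.isFlow {p p' : S →ₐ[ℂ] ℂ} {s : ℂ} (h : IsFlowW D p s p') : IsFlow D p s p' := by
  have htc : ∀ f n, tcW D p f n = tc D p f n := by
    intro f n
    unfold tcW tc
    rw [smul_eq_mul, mul_comm, div_eq_mul_inv]
  intro f
  obtain ⟨h1, h2⟩ := h f
  refine ⟨?_, ?_⟩
  · unfold Conv
    refine h1.congr fun n => ?_
    rw [htc]
  · rw [h2]
    unfold evW ev
    exact tsum_congr fun n => by rw [htc]

theorem IsFlow.isFlowW {p p' : S →ₐ[ℂ] ℂ} {s : ℂ} (h : IsFlow D p s p') : IsFlowW D p s p' := by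
  have htc : ∀ f n, tcW D p f n = tc D p f n := by
    intro f n
    unfold tcW tc
    rw [smul_eq_mul, mul_comm, div_eq_mul_inv]
  intro f
  obtain ⟨h1, h2⟩ := h f
  refine ⟨?_, ?_⟩
  · unfold ConvW
    refine h1.congr fun n => ?_
    rw [htc]
  · rw [h2]
    unfold evW ev
    exact tsum_congr fun n => by rw [htc]

end Pool.Agent.CampanaB
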