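import Pool.Agent.Lib_MP_1209e6_fl.Defs

set_option autoImplicit false

open Filter Topology

namespace Pool.Agent.CampanaFlow

variable {S : Type} [CommRing S] [Algebra ℂ S]

/-- gluing of two curves of points which agree on the intersection of their domains -/
theorem glue_two {U₁ U₂ A₁ A₂ : Set ℂ} (hU₁ : IsOpen U₁) (hU₂ : IsOpen U₂) (hA₁ : IsClosed A₁)
    (hA₂ : IsClosed A₂) (h₁ : A₁ ⊆ U₁) (h₂ : A₂ ⊆ U₂) (hA : A₁ ∪ A₂ = Set.univ)
    {γ₁ γ₂ : ℂ → S →ₐ[ℂ] ℂ} {B₁ B₂ : Set ℂ} (hγ₁ : IsCurve U₁ γ₁ B₁) (hγ₂ : IsCurve U₂ γ₂ B₂)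
    (he : ∀ z ∈ U₁, z ∈ U₂ → z ∉ B₁ → z ∉ B₂ → γ₁ z = γ₂ z) :
    ∃ (γ : ℂ → S →ₐ[ℂ] ℂ) (B : Set ℂ), IsCurve Set.univ γ B ∧
      (∀ z ∈ A₁, z ∉ B → z ∉ B₁ ∧ γ z = γ₁ z) ∧ (∀ z ∈ A₂, z ∉ B → z ∉ B₂ ∧ γ z = γ₂ z) ∧
      (∀ z, z ∈ B → (z ∈ A₁ ∧ z ∈ B₁) ∨ (z ∈ A₂ ∧ z ∈ B₂)) := by
  classical
  let γ : ℂ → S →ₐ[ℂ] ℂ := fun z => if z ∈ A₁ then γ₁ z else γ₂ z
  let B : Set ℂ := {z | (z ∈ A₁ ∧ z ∈ B₁) ∨ (z ∈ A₂ ∧ z ∈ B₂)}
  have hγA : ∀ z ∈ A₁, γ z = γ₁ z := fun z hz => if_pos hz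
  have hγA' : ∀ z, z ∉ A₁ → γ z = γ₂ z := fun z hz => if_neg hz
  have h12 : ∀ z ∈ A₁, z ∈ A₂ → z ∉ B₁ → z ∉ B₂ → γ₁ z = γ₂ z := fun z hz1 hz2 =>
    he z (h₁ hz1) (h₂ hz2)
  have hcov : ∀ z, z ∈ A₁ ∨ z ∈ A₂ := fun z => by
    have : z ∈ A₁ ∪ A₂ := by rw [hA]; exact Set.mem_univ z
    exact this
  -- the three kinds of points
  have key : ∀ z : ℂ, (∃ i : Bool, (∀ᶠ w in 𝓝 z, (w ∈ (bif i then U₁ else U₂)) ∧
      (w ∈ B ↔ w ∈ (bif i then B₁ else B₂)) ∧ γ w = (bif i then γ₁ else γ₂) w)) ∨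
      (z ∈ U₁ ∧ z ∈ U₂ ∧ z ∈ A₁ ∧ z ∈ A₂) := by
    intro z
    by_cases hz1 : z ∈ A₁
    · by_cases hz2 : z ∈ A₂
      · exact Or.inr ⟨h₁ hz1, h₂ hz2, hz1, hz2⟩
      · left
        refine ⟨true, ?_⟩
        filter_upwards [hA₂.isOpen_compl.mem_nhds hz2] with w hw
        have hw1 : w ∈ A₁ := (hcov w).resolve_right hw
        refine ⟨h₁ hw1, ?_, hγA w hw1⟩
        constructor
        · rintro (h | h)
          · exact h.2
          · exact absurd h.1 hw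
        · intro h
          exact Or.inl ⟨hw1, h⟩
    · left
      refine ⟨false, ?_⟩
      filter_upwards [hA₁.isOpen_compl.mem_nhds hz1] with w hw
      have hw2 : w ∈ A₂ := (hcov w).resolve_left hw
      refine ⟨h₂ hw2, ?_, hγA' w hw⟩
      constructor
      · rintro (h | h)
        · exact absurd h.1 hw
        · exact h.2
      · intro h
        exact Or.inr ⟨hw2, h⟩
  refine ⟨γ, B, ⟨?_, ?_, ?_⟩, ?_, ?_, fun z hz => hz⟩
  · intro z _
    rcases key z with ⟨i, hi⟩ | ⟨hzU1, hzU2, -, -⟩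
    · have hzU := hi.self_of_nhds.1
      cases i with
      | true =>
        have h := hγ₁.disc z hzU
        filter_upwards [h, hi.filter_mono nhdsWithin_le_nhds] with w hw1 hw2 hwB
        exact hw1 (hw2.2.1.1 hwB)
      | false =>
        have h := hγ₂.disc z hzU
        filter_upwards [h, hi.filter_mono nhdsWithin_le_nhds] with w hw1 hw2 hwB
        exact hw1 (hw2.2.1.1 hwB)
    · filter_upwards [hγ₁.disc z hzU1, hγ₂.disc z hzU2] with w hw1 hw2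
      rintro (h | h)
      · exact hw1 h.2
      · exact hw2 h.2
  · intro f z _ hzB
    rcases key z with ⟨i, hi⟩ | ⟨hzU1, hzU2, hzA1, hzA2⟩
    · have hzU := hi.self_of_nhds.1
      cases i with
      | true =>
        refine (hγ₁.ana f z hzU fun h => hzB (hi.self_of_nhds.2.1.2 h)).congr ?_
        filter_upwards [hi] with w hw
        rw [hw.2.2]
        rfl
      | false =>
        refine (hγ₂.ana f z hzU fun h => hzB (hi.self_of_nhds.2.1.2 h)).congr ?_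
        filter_upwards [hi] with w hw
        rw [hw.2.2]
        rfl
    · have hz1 : z ∉ B₁ := fun h => hzB (Or.inl ⟨hzA1, h⟩)
      have hz2 : z ∉ B₂ := fun h => hzB (Or.inr ⟨hzA2, h⟩)
      refine (hγ₁.ana f z hzU1 hz1).congr ?_
      have e1 := eventually_nhdsWithin_iff.1 (hγ₁.disc z hzU1)
      have e2 := eventually_nhdsWithin_iff.1 (hγ₂.disc z hzU2)
      filter_upwards [e1, e2, hU₁.mem_nhds hzU1, hU₂.mem_nhds hzU2] with w hw1 hw2 hw3 hw4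
      have hwB1 : w ∉ B₁ := by
        by_cases hwz : w = z
        · rw [hwz]; exact hz1
        · exact hw1 hwz
      have hwB2 : w ∉ B₂ := by
        by_cases hwz : w = z
        · rw [hwz]; exact hz2
        · exact hw2 hwz
      by_cases hwA : w ∈ A₁
      · rw [hγA w hwA]
      · rw [hγA' w hwA, he w hw3 hw4 hwB1 hwB2]
  · intro f z _
    rcases key z with ⟨i, hi⟩ | ⟨hzU1, hzU2, -, -⟩
    · have hzU := hi.self_of_nhds.1
      cases i with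
      | true =>
        refine (hγ₁.mer f z hzU).congr ?_
        filter_upwards [hi.filter_mono nhdsWithin_le_nhds] with w hw
        rw [hw.2.2]
        rfl
      | false =>
        refine (hγ₂.mer f z hzU).congr ?_
        filter_upwards [hi.filter_mono nhdsWithin_le_nhds] with w hw
        rw [hw.2.2]
        rfl
    · refine (hγ₁.mer f z hzU1).congr ?_
      filter_upwards [hγ₁.disc z hzU1, hγ₂.disc z hzU2,
        mem_nhdsWithin_of_mem_nhds (hU₁.mem_nhds hzU1),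
        mem_nhdsWithin_of_mem_nhds (hU₂.mem_nhds hzU2)] with w hwB1 hwB2 hw3 hw4
      by_cases hwA : w ∈ A₁
      · rw [hγA w hwA]
      · rw [hγA' w hwA, he w hw3 hw4 hwB1 hwB2]
  · intro z hz hzB
    exact ⟨fun h => hzB (Or.inl ⟨hz, h⟩), hγA z hz⟩
  · intro z hz hzB
    have hz2 : z ∉ B₂ := fun h => hzB (Or.inr ⟨hz, h⟩)
    refine ⟨hz2, ?_⟩
    by_cases hzA : z ∈ A₁
    · rw [hγA z hzA]
      exact h12 z hzA hz (fun h => hzB (Or.inl ⟨hzA, h⟩)) hz2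
    · exact hγA' z hzA

end Pool.Agent.CampanaFlow
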