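import Pool.Agent.Lib_MP_1209e6_fl.C0
import Pool.Agent.Lib_MP_1209e6_fl.Defs

/-! A preconnected open set of the plane minus a discrete set is preconnected; gluing of curves. -/

set_option autoImplicit false

open Filter Topology Pool.Agent.CampanaFlow

namespace Pool.Agent.CampanaK

/-- a punctured disc is preconnected -/
theorem preconn_punct (x : ℂ) (r : ℝ) : IsPreconnected (Metric.ball x r \ {x}) := by
  have h1 : IsPreconnected (Metric.ball (0 : ℂ) r \ {0}) := by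
    refine preconn r {0} fun z _ => ?_
    by_cases hz : z = 0
    · rw [hz]
      filter_upwards [self_mem_nhdsWithin] with w hw
      exact hw
    · have h2 : ({0}ᶜ : Set ℂ) ∈ 𝓝 z := isOpen_compl_singleton.mem_nhds hz
      exact nhdsWithin_le_nhds h2
  have h2 : (fun w => w + x) '' (Metric.ball (0 : ℂ) r \ {0}) = Metric.ball x r \ {x} := by
    ext y
    constructor
    · rintro ⟨w, ⟨hw1, hw2⟩, rfl⟩
      refine ⟨?_, ?_⟩
      · rw [Metric.mem_ball, dist_eq_norm, add_sub_cancel_right]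
        exact mem_ball_zero_iff.1 hw1
      · intro h
        apply hw2
        have : w + x = x := h
        exact add_eq_right.1 this
    · rintro ⟨hy1, hy2⟩
      refine ⟨y - x, ⟨?_, ?_⟩, sub_add_cancel y x⟩
      · rw [mem_ball_zero_iff, ← dist_eq_norm]
        exact hy1
      · intro h
        exact hy2 (sub_eq_zero.1 h)
  rw [← h2]
  exact h1.image _ (by fun_prop)

theorem preconnU {U : Set ℂ} (hU : IsOpen U) (hc : IsPreconnected U) (B : Set ℂ)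
    (hB : ∀ z ∈ U, ∀ᶠ w in 𝓝[≠] z, w ∉ B) : IsPreconnected (U \ B) := by
  intro u v hu hv hcov hnu hnv
  by_contra hcon
  have hdisj : ∀ w ∈ U \ B, w ∈ u → w ∈ v → False := by
    intro w hw h1 h2
    exact hcon ⟨w, hw, h1, h2⟩
  have hopen : ∀ t : Set ℂ, IsOpen t → IsOpen {x : ℂ | ∀ᶠ w in 𝓝[≠] x, w ∈ t} := by
    intro t ht
    rw [isOpen_iff_mem_nhds]
    intro x hx
    have hx2 := eventually_nhdsWithin_iff.1 hx
    filter_upwards [hx2] with w hw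
    by_cases hwx : w = x
    · rw [hwx]; exact hx
    · exact mem_nhdsWithin_of_mem_nhds (ht.mem_nhds (hw hwx))
  have hself : ∀ t : Set ℂ, IsOpen t → ∀ x ∈ t, ∀ᶠ w in 𝓝[≠] x, w ∈ t := by
    intro t ht x hx
    exact mem_nhdsWithin_of_mem_nhds (ht.mem_nhds hx)
  have hcov' : U ⊆ {x : ℂ | ∀ᶠ w in 𝓝[≠] x, w ∈ u} ∪ {x : ℂ | ∀ᶠ w in 𝓝[≠] x, w ∈ v} := by
    intro x hx
    have h1 : ∀ᶠ w in 𝓝[≠] x, w ∈ U \ B := by
      filter_upwards [hB x hx, mem_nhdsWithin_of_mem_nhds (hU.mem_nhds hx)] with w h1 h2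
      exact ⟨h2, h1⟩
    obtain ⟨r, hr, hsub⟩ := Metric.mem_nhdsWithin_iff.1 h1
    have hP := preconn_punct x r
    have hsub' : Metric.ball x r \ {x} ⊆ U \ B := fun w hw => hsub ⟨hw.1, hw.2⟩
    have hmem : Metric.ball x r \ {x} ∈ 𝓝[≠] x :=
      Filter.inter_mem (mem_nhdsWithin_of_mem_nhds (Metric.ball_mem_nhds x hr)) self_mem_nhdsWithin
    by_cases hcu : ((Metric.ball x r \ {x}) ∩ u).Nonempty
    · by_cases hcv : ((Metric.ball x r \ {x}) ∩ v).Nonempty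
      · exfalso
        obtain ⟨w, hw, h2, h3⟩ := hP u v hu hv (hsub'.trans hcov) hcu hcv
        exact hdisj w (hsub' hw) h2 h3
      · left
        show ∀ᶠ w in 𝓝[≠] x, w ∈ u
        filter_upwards [hmem] with w hw
        rcases hcov (hsub' hw) with h | h
        · exact h
        · exact absurd ⟨w, hw, h⟩ hcv
    · right
      show ∀ᶠ w in 𝓝[≠] x, w ∈ v
      filter_upwards [hmem] with w hw
      rcases hcov (hsub' hw) with h | h
      · exact absurd ⟨w, hw, h⟩ hcu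
      · exact h
  obtain ⟨a, ha, ha'⟩ := hnu
  obtain ⟨b, hb, hb'⟩ := hnv
  obtain ⟨y, hy, hy1, hy2⟩ := hc _ _ (hopen u hu) (hopen v hv) hcov'
    ⟨a, ha.1, hself u hu a ha'⟩ ⟨b, hb.1, hself v hv b hb'⟩
  have h1 : ∀ᶠ w in 𝓝[≠] y, w ∈ u := hy1
  have h2 : ∀ᶠ w in 𝓝[≠] y, w ∈ v := hy2
  have h3 : ∀ᶠ w in 𝓝[≠] y, w ∈ U := mem_nhdsWithin_of_mem_nhds (hU.mem_nhds hy)
  obtain ⟨w, hw1, hw2, hw3, hw4⟩ := (h1.and (h2.and ((hB y hy).and h3))).exists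
  exact hdisj w ⟨hw4, hw3⟩ hw1 hw2

variable {S : Type} [CommRing S] [Algebra ℂ S]

/-- the exceptional set avoids a neighbourhood of each ordinary point -/
theorem evt_not_mem {U : Set ℂ} {γ : ℂ → S →ₐ[ℂ] ℂ} {B : Set ℂ} (h : IsCurve U γ B) {z : ℂ}
    (hz : z ∈ U) (hzB : z ∉ B) : ∀ᶠ w in 𝓝 z, w ∉ B := by
  have d0 := h.disc z hz
  rw [eventually_nhdsWithin_iff] at d0
  filter_upwards [d0] with w hw
  by_cases hwz : w = z
  · rw [hwz]; exact hzB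
  · exact hw hwz

theorem IsCurve.mono {U V : Set ℂ} (hUV : V ⊆ U) {γ : ℂ → S →ₐ[ℂ] ℂ} {B : Set ℂ}
    (h : IsCurve U γ B) : IsCurve V γ B :=
  ⟨fun z hz => h.disc z (hUV hz), fun f z hz hB => h.ana f z (hUV hz) hB,
    fun f z hz => h.mer f z (hUV hz)⟩

/-- Two curves which agree near a point agree outside of the exceptional sets. -/
theorem curve_eq {U : Set ℂ} (hU : IsOpen U) (hc : IsPreconnected U)
    {γ γ' : ℂ → S →ₐ[ℂ] ℂ} {B B' : Set ℂ}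
    (h : IsCurve U γ B) (h' : IsCurve U γ' B') {z₀ : ℂ} (hz₀ : z₀ ∈ U)
    (h0 : z₀ ∉ B) (h0' : z₀ ∉ B') (he : ∀ᶠ w in 𝓝 z₀, γ w = γ' w) :
    ∀ z ∈ U, z ∉ B → z ∉ B' → γ z = γ' z := by
  intro z hz hzB hzB'
  have hB : ∀ z ∈ U, ∀ᶠ w in 𝓝[≠] z, w ∉ B ∪ B' := by
    intro z hz
    filter_upwards [h.disc z hz, h'.disc z hz] with w h1 h2
    rintro (h3 | h3)
    · exact h1 h3
    · exact h2 h3
  have hpre := preconnU hU hc (B ∪ B') hB
  apply AlgHom.ext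
  intro f
  have ha : AnalyticOnNhd ℂ (fun w => γ w f) (U \ (B ∪ B')) :=
    fun w hw => h.ana f w hw.1 (fun h1 => hw.2 (Or.inl h1))
  have ha' : AnalyticOnNhd ℂ (fun w => γ' w f) (U \ (B ∪ B')) :=
    fun w hw => h'.ana f w hw.1 (fun h1 => hw.2 (Or.inr h1))
  have hz0 : z₀ ∈ U \ (B ∪ B') := by
    refine ⟨hz₀, ?_⟩
    rintro (h3 | h3)
    · exact h0 h3
    · exact h0' h3
  have hev : (fun w => γ w f) =ᶠ[𝓝 z₀] (fun w => γ' w f) := by
    filter_upwards [he] with w hw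
    show γ w f = γ' w f
    rw [hw]
  refine ha.eqOn_of_preconnected_of_eventuallyEq ha' hpre hz0 hev ⟨hz, ?_⟩
  rintro (h3 | h3)
  · exact hzB h3
  · exact hzB' h3

/-- Curves over open sets which agree on the overlaps, outside of the exceptional sets, glue. -/
theorem glue_family {ι : Type} (U : ι → Set ℂ) (hU : ∀ i, IsOpen (U i))
    (γ : ι → ℂ → S →ₐ[ℂ] ℂ) (B : ι → Set ℂ) (h : ∀ i, IsCurve (U i) (γ i) (B i))
    (p : S →ₐ[ℂ] ℂ)
    (he : ∀ i j, ∀ z ∈ U i, z ∈ U j → z ∉ B i → z ∉ B j → γ i z = γ j z) :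
    ∃ (γ' : ℂ → S →ₐ[ℂ] ℂ) (B' : Set ℂ), IsCurve (⋃ i, U i) γ' B' ∧
      ∀ i, ∀ z ∈ U i, z ∉ B i → z ∉ B' ∧ γ' z = γ i z := by
  classical
  let γ' : ℂ → S →ₐ[ℂ] ℂ := fun z =>
    if h : ∃ i, z ∈ U i ∧ z ∉ B i then γ h.choose z else p
  let B' : Set ℂ := {z | ∀ i, z ∈ U i → z ∈ B i}
  have hkey : ∀ i, ∀ z ∈ U i, z ∉ B i → z ∉ B' ∧ γ' z = γ i z := by
    intro i z hz hzB
    refine ⟨fun h1 => hzB (h1 i hz), ?_⟩
    have hex : ∃ i, z ∈ U i ∧ z ∉ B i := ⟨i, hz, hzB⟩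
    have h1 : γ' z = γ hex.choose z := dif_pos hex
    rw [h1]
    exact he _ _ z hex.choose_spec.1 hz hex.choose_spec.2 hzB
  refine ⟨γ', B', ⟨?_, ?_, ?_⟩, hkey⟩
  · intro z hz
    obtain ⟨i, hi⟩ := Set.mem_iUnion.1 hz
    filter_upwards [(h i).disc z hi, mem_nhdsWithin_of_mem_nhds ((hU i).mem_nhds hi)] with w h1 h2
    exact (hkey i w h2 h1).1
  · intro f z _ hzB
    have h1 : ∃ i, z ∈ U i ∧ z ∉ B i := by
      by_contra hcon
      push Not at hcon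
      exact hzB hcon
    obtain ⟨i, hi, hiB⟩ := h1
    refine ((h i).ana f z hi hiB).congr ?_
    filter_upwards [evt_not_mem (h i) hi hiB, (hU i).mem_nhds hi] with w h1 h2
    show γ i w f = γ' w f
    rw [(hkey i w h2 h1).2]
  · intro f z hz
    obtain ⟨i, hi⟩ := Set.mem_iUnion.1 hz
    refine ((h i).mer f z hi).congr ?_
    filter_upwards [(h i).disc z hi, mem_nhdsWithin_of_mem_nhds ((hU i).mem_nhds hi)] with w h1 h2
    show γ i w f = γ' w f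
    rw [(hkey i w h2 h1).2]

/-- gluing over an increasing union -/
theorem glue_mono (U : ℕ → Set ℂ) (hmono : Monotone U) (hU : ∀ n, IsOpen (U n))
    (hc : ∀ n, IsPreconnected (U n)) (γ : ℕ → ℂ → S →ₐ[ℂ] ℂ) (B : ℕ → Set ℂ)
    (h : ∀ n, IsCurve (U n) (γ n) (B n)) {z₀ : ℂ} (hz₀ : z₀ ∈ U 0) (h0 : ∀ n, z₀ ∉ B n)
    (he : ∀ n m, ∀ᶠ w in 𝓝 z₀, γ n w = γ m w) :
    ∃ (γ' : ℂ → S →ₐ[ℂ] ℂ) (B' : Set ℂ), IsCurve (⋃ n, U n) γ' B' ∧
      ∀ n, ∀ z ∈ U n, z ∉ B n → z ∉ B' ∧ γ' z = γ n z := by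
  refine glue_family U hU γ B h (γ 0 z₀) ?_
  have key : ∀ n m, n ≤ m → ∀ z ∈ U n, z ∉ B n → z ∉ B m → γ n z = γ m z := by
    intro n m hnm z hz h1 h2
    exact curve_eq (hU n) (hc n) (h n) (IsCurve.mono (hmono hnm) (h m)) (hmono (Nat.zero_le n) hz₀)
      (h0 n) (h0 m) (he n m) z hz h1 h2
  intro n m z hz1 hz2 h1 h2
  rcases le_total n m with hnm | hnm
  · exact key n m hnm z hz1 h1 h2
  · exact (key m n hnm z hz2 h2 h1).symm

end Pool.Agent.CampanaK
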