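import Pool.Agent.Lib_MP_1209e6_kc.U0
import Pool.Agent.Lib_MP_1209e6_fl.C4

/-! One small step of the flow, applied to a curve over an open preconnected set. -/

set_option autoImplicit false

open Filter Topology Pool.Agent.CampanaFlow

namespace Pool.Agent.CampanaK

variable {S : Type} [CommRing S] [Algebra ℂ S] {D : Derivation ℂ S S}

theorem kc_nhds {U : Set ℂ} (hU : IsOpen U) {γ : ℂ → S →ₐ[ℂ] ℂ} {B : Set ℂ}
    (hγ : IsCurve U γ B) (cd : ChartData D) (τ : ℂ → ℂ) (hτ : ∀ z ∈ U, AnalyticAt ℂ τ z)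
    (hs : ∀ z ∈ U, z ∉ B → ‖τ z‖ * cd.size (γ z) ≤ 1 / 4)
    (z : ℂ) (hz : z ∈ U) (hzB : z ∉ B) :
    ∃ j, (∀ᶠ w in 𝓝 z, w ∈ U ∧ w ∉ B ∧ ∀ l, ‖γ w (cd.X j l)‖ ≤ 2) ∧
      ∀ f ∈ Algebra.adjoin ℂ (Set.range (Sum.elim cd.c (cd.X j))),
        AnalyticAt ℂ (fun w => ev D (γ w) (τ w) f) z := by
  obtain ⟨j, hj⟩ := cd.exists_chart_nhds γ z (fun f => (hγ.ana f z hz hzB).continuousAt)
  have h1 : ∀ᶠ w in 𝓝 z, w ∈ U := hU.mem_nhds hz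
  have h2 : ∀ᶠ w in 𝓝 z, w ∉ B := by
    have h := hγ.disc z hz
    rw [eventually_nhdsWithin_iff] at h
    filter_upwards [h] with w hw
    by_cases hwz : w = z
    · rw [hwz]; exact hzB
    · exact hw hwz
  have h3 := h1.and (h2.and hj)
  refine ⟨j, h3, fun f hf => ?_⟩
  obtain ⟨V, hV, hVo, hzV⟩ := eventually_nhds_iff.1 h3
  exact cd.ana hVo γ (fun f w hw => hγ.ana f w (hV w hw).1 (hV w hw).2.1) τ
    (fun w hw => hτ w (hV w hw).1) j (fun w hw => (hV w hw).2.2)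
    (fun w hw => hs w (hV w hw).1 (hV w hw).2.1) f hf z hzV

theorem kc_near {U : Set ℂ} (hU : IsOpen U) {γ : ℂ → S →ₐ[ℂ] ℂ} {B : Set ℂ}
    (hγ : IsCurve U γ B) (cd : ChartData D) (τ : ℂ → ℂ) (hτ : ∀ z ∈ U, AnalyticAt ℂ τ z)
    (hs : ∀ z ∈ U, z ∉ B → ‖τ z‖ * cd.size (γ z) ≤ 1 / 4)
    (z : ℂ) (hz : z ∈ U) :
    ∃ j, (∀ᶠ w in 𝓝[≠] z, w ∈ U ∧ w ∉ B ∧ ∀ l, ‖γ w (cd.X j l)‖ ≤ 2) ∧
      ∀ f ∈ Algebra.adjoin ℂ (Set.range (Sum.elim cd.c (cd.X j))),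
        MeromorphicAt (fun w => ev D (γ w) (τ w) f) z := by
  obtain ⟨j, hj⟩ := cd.exists_chart_near γ z (fun f => hγ.mer f z hz)
  have h1 : ∀ᶠ w in 𝓝[≠] z, w ∈ U :=
    mem_nhdsWithin_of_mem_nhds (hU.mem_nhds hz)
  have h2 := hγ.disc z hz
  refine ⟨j, h1.and (h2.and hj), fun f hf => ?_⟩
  refine cd.mero γ τ z (fun f => hγ.mer f z hz) ?_ (hτ z hz) j hj ?_ f hf
  · filter_upwards [h1, h2] with w hw1 hw2 f
    exact hγ.ana f w hw1 hw2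
  · filter_upwards [h1, h2] with w hw1 hw2
    exact hs w hw1 hw2

/-- the set where the step exists is open -/
theorem kc_open {U : Set ℂ} (hU : IsOpen U) {γ : ℂ → S →ₐ[ℂ] ℂ} {B : Set ℂ}
    (hγ : IsCurve U γ B) (cd : ChartData D) (τ : ℂ → ℂ) (hτ : ∀ z ∈ U, AnalyticAt ℂ τ z)
    (hs : ∀ z ∈ U, z ∉ B → ‖τ z‖ * cd.size (γ z) ≤ 1 / 4) :
    IsOpen {z | z ∈ U ∧ z ∉ B ∧ ∃ q, Step D (γ z) (τ z) q} := by
  rw [isOpen_iff_mem_nhds]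
  rintro z ⟨hz, hzB, hq⟩
  obtain ⟨j, hj, hana⟩ := kc_nhds hU hγ cd τ hτ hs z hz hzB
  have h0 : ev D (γ z) (τ z) (cd.β j) ≠ 0 :=
    (cd.step_iff (γ z) j hj.self_of_nhds.2.2 (τ z) (hs z hz hzB)).1 hq
  have h1 : ∀ᶠ w in 𝓝 z, ev D (γ w) (τ w) (cd.β j) ≠ 0 :=
    (hana _ (cd.β_mem j)).continuousAt.eventually_ne h0
  filter_upwards [h1, hj] with w hw1 hw2
  exact ⟨hw2.1, hw2.2.1, (cd.step_iff (γ w) j hw2.2.2 (τ w) (hs w hw2.1 hw2.2.1)).2 hw1⟩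

/-- near every point of the disc: the step exists nowhere or everywhere (except at the point) -/
theorem kc_dich {U : Set ℂ} (hU : IsOpen U) {γ : ℂ → S →ₐ[ℂ] ℂ} {B : Set ℂ}
    (hγ : IsCurve U γ B) (cd : ChartData D) (τ : ℂ → ℂ) (hτ : ∀ z ∈ U, AnalyticAt ℂ τ z)
    (hs : ∀ z ∈ U, z ∉ B → ‖τ z‖ * cd.size (γ z) ≤ 1 / 4)
    (z : ℂ) (hz : z ∈ U) :
    (∀ᶠ w in 𝓝[≠] z,
      w ∉ {z | z ∈ U ∧ z ∉ B ∧ ∃ q, Step D (γ z) (τ z) q}) ∨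
    ∀ᶠ w in 𝓝[≠] z,
      w ∈ {z | z ∈ U ∧ z ∉ B ∧ ∃ q, Step D (γ z) (τ z) q} := by
  obtain ⟨j, hj, hmer⟩ := kc_near hU hγ cd τ hτ hs z hz
  rcases (hmer _ (cd.β_mem j)).eventually_eq_zero_or_eventually_ne_zero with h | h
  · left
    filter_upwards [h, hj] with w hw1 hw2 hw3
    exact (cd.step_iff (γ w) j hw2.2.2 (τ w) (hs w hw2.1 hw2.2.1)).1 hw3.2.2 hw1
  · right
    filter_upwards [h, hj] with w hw1 hw2
    exact ⟨hw2.1, hw2.2.1, (cd.step_iff (γ w) j hw2.2.2 (τ w) (hs w hw2.1 hw2.2.1)).2 hw1⟩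

/-- the step exists in a punctured neighbourhood of every point -/
theorem kc_all {U : Set ℂ} (hU : IsOpen U) (hc : IsPreconnected U) {γ : ℂ → S →ₐ[ℂ] ℂ} {B : Set ℂ}
    (hγ : IsCurve U γ B) (cd : ChartData D) (τ : ℂ → ℂ) (hτ : ∀ z ∈ U, AnalyticAt ℂ τ z)
    (hs : ∀ z ∈ U, z ∉ B → ‖τ z‖ * cd.size (γ z) ≤ 1 / 4)
    (z₀ : ℂ) (hz₀ : z₀ ∈ U) (hz₀B : z₀ ∉ B)
    (h0 : ∃ q, Step D (γ z₀) (τ z₀) q) (z : ℂ) (hz : z ∈ U) :
    ∀ᶠ w in 𝓝[≠] z,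
      w ∈ {z | z ∈ U ∧ z ∉ B ∧ ∃ q, Step D (γ z) (τ z) q} := by
  have hGo := kc_open hU hγ cd τ hτ hs
  have hdich := kc_dich hU hγ cd τ hτ hs
  set G : Set ℂ := {z | z ∈ U ∧ z ∉ B ∧ ∃ q, Step D (γ z) (τ z) q} with hG
  have hpre := preconnU hU hc B hγ.disc
  have hu : IsOpen {x : ℂ | ∀ᶠ w in 𝓝 x, w ∉ G} := isOpen_setOfPred_eventually_nhds
  have hv : IsOpen {x : ℂ | ∀ᶠ w in 𝓝[≠] x, w ∈ G} := by
    rw [isOpen_iff_mem_nhds]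
    intro x hx
    have hx1 : ∀ᶠ w in 𝓝[≠] x, ∀ᶠ u in 𝓝 w, u ∈ G := C4_punct hx
    have hx2 := eventually_nhdsWithin_iff.1 hx1
    filter_upwards [hx2] with w hw
    by_cases hwx : w = x
    · rw [hwx]; exact hx
    · exact (hw hwx).filter_mono nhdsWithin_le_nhds
  have hGe : ∀ y ∈ G, ∀ᶠ w in 𝓝[≠] y, w ∈ G := fun y hy =>
    mem_nhdsWithin_of_mem_nhds (hGo.mem_nhds hy)
  -- all points of the disc outside `B`
  have hmain : ∀ x ∈ U \ B, ¬ ∀ᶠ w in 𝓝 x, w ∉ G := by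
    intro x hx hxu
    have hcov : U \ B ⊆
        {x : ℂ | ∀ᶠ w in 𝓝 x, w ∉ G} ∪ {x : ℂ | ∀ᶠ w in 𝓝[≠] x, w ∈ G} := by
      intro y hy
      by_cases hyG : y ∈ G
      · right
        exact hGe y hyG
      · rcases hdich y hy.1 with h | h
        · left
          have h2 := eventually_nhdsWithin_iff.1 h
          show ∀ᶠ w in 𝓝 y, w ∉ G
          filter_upwards [h2] with w hw
          by_cases hwy : w = y
          · rw [hwy]; exact hyG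
          · exact hw hwy
        · right
          exact h
    have hz₀G : z₀ ∈ G := ⟨hz₀, hz₀B, h0⟩
    obtain ⟨y, -, hy1, hy2⟩ := hpre _ _ hu hv hcov ⟨x, hx, hxu⟩
      ⟨z₀, ⟨hz₀, hz₀B⟩, hGe z₀ hz₀G⟩
    have hy3 : ∀ᶠ w in 𝓝[≠] y, w ∉ G := (hy1 : ∀ᶠ w in 𝓝 y, w ∉ G).filter_mono nhdsWithin_le_nhds
    obtain ⟨w, hw1, hw2⟩ := (hy3.and hy2).exists
    exact hw1 hw2
  rcases hdich z hz with h | h
  · exfalso
    have h1 := C4_punct h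
    have h2 : ∀ᶠ w in 𝓝[≠] z, w ∈ U :=
      mem_nhdsWithin_of_mem_nhds (hU.mem_nhds hz)
    obtain ⟨w, ⟨hw1, hw2⟩, hw3⟩ := ((h1.and h2).and (hγ.disc z hz)).exists
    exact hmain w ⟨hw2, hw3⟩ hw1
  · exact h

/-- Let `U` be the disc and `G` the set of `z ∈ U \ B` such that a step `q'` exists at `z`. Locally at
`z₀ ∈ U \ B` (chart `j` good near `z₀`, `C3`) `G` is the set where the analytic function
`h w = ev D (γ w) (τ w) (β j)` (`C1`) does not vanish (`step_iff`). So `G` is open and the set `Z` of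
points of `U \ B` having a neighbourhood disjoint from `G` is open and closed in `U \ B`
(`AnalyticAt.eventually_eq_zero_or_eventually_ne_zero`), which is preconnected (`C0`) and contains
`z₀ ∈ G`: `Z = ∅`, so the complement of `G` is discrete in `U \ B`. At `z₁ ∈ B ∩ U`
(`exists_chart_near`, `mero`) `h` is meromorphic at `z₁`, so eventually zero or eventually nonzero in a
punctured neighbourhood; the first would give points of `Z`. Put `B' = B ∪ {z ∈ U | z ∉ B, z ∉ G}` and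
`γ' z` = the step at `z` if `z ∈ G` and `γ z` otherwise. Near a point of `G` (resp. in a punctured
neighbourhood of any point of `U`) one has `γ' w f = ev (f β^m) / (ev β)^m` (`Step.eq_div`, `β_loc`), an
analytic (resp. meromorphic) function. -/
theorem step_curveU {U : Set ℂ} (hU : IsOpen U) (hc : IsPreconnected U) {γ : ℂ → S →ₐ[ℂ] ℂ} {B : Set ℂ}
    (hγ : IsCurve U γ B) (cd : ChartData D) (τ : ℂ → ℂ) (hτ : ∀ z ∈ U, AnalyticAt ℂ τ z)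
    (hs : ∀ z ∈ U, z ∉ B → ‖τ z‖ * cd.size (γ z) ≤ 1 / 4)
    (z₀ : ℂ) (hz₀ : z₀ ∈ U) (hz₀B : z₀ ∉ B)
    (h0 : ∃ q, Step D (γ z₀) (τ z₀) q) :
    ∃ (γ' : ℂ → S →ₐ[ℂ] ℂ) (B' : Set ℂ), IsCurve U γ' B' ∧ B ⊆ B' ∧
      (∀ z ∈ U, z ∉ B' → Step D (γ z) (τ z) (γ' z)) ∧
      ∀ z ∈ U, z ∉ B → (∃ q, Step D (γ z) (τ z) q) → z ∉ B' := by
  classical
  have hGo := kc_open hU hγ cd τ hτ hs
  have hall := kc_all hU hc hγ cd τ hτ hs z₀ hz₀ hz₀B h0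
  set G : Set ℂ := {z | z ∈ U ∧ z ∉ B ∧ ∃ q, Step D (γ z) (τ z) q} with hG
  have hstep : ∀ z, z ∈ G → ∃ q, Step D (γ z) (τ z) q := fun z hz => hz.2.2
  let γ' : ℂ → S →ₐ[ℂ] ℂ := fun z => if h : z ∈ G then (hstep z h).choose else γ z
  have hγ' : ∀ z, z ∈ G → Step D (γ z) (τ z) (γ' z) := by
    intro z hz
    have h1 : γ' z = (hstep z hz).choose := dif_pos hz
    rw [h1]
    exact (hstep z hz).choose_spec
  have hform : ∀ (j : Fin (cd.N + 1)) (f : S) (m : ℕ),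
      f * cd.β j ^ m ∈ Algebra.adjoin ℂ (Set.range (Sum.elim cd.c (cd.X j))) →
      ∀ w, w ∈ G → (∀ l, ‖γ w (cd.X j l)‖ ≤ 2) →
        ev D (γ w) (τ w) (f * cd.β j ^ m) / ev D (γ w) (τ w) (cd.β j) ^ m = γ' w f := by
    intro j f m hm w hw hjw
    have ht := hs w hw.1 hw.2.1
    exact ((hγ' w hw).eq_div (cd.conv (γ w) j hjw (τ w) ht _ (cd.β_mem j))
      ((cd.step_iff (γ w) j hjw (τ w) ht).1 (hstep w hw))
      (cd.conv (γ w) j hjw (τ w) ht _ hm)).symm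
  refine ⟨γ', Gᶜ, ⟨?_, ?_, ?_⟩, ?_, ?_, ?_⟩
  · intro z hz
    filter_upwards [hall z hz] with w hw
    exact not_not.2 hw
  · intro f z hz hzG
    have hzG' : z ∈ G := not_not.1 hzG
    obtain ⟨j, hj, hana⟩ := kc_nhds hU hγ cd τ hτ hs z hz hzG'.2.1
    obtain ⟨m, hm⟩ := cd.β_loc j f
    have h1 := hana _ hm
    have h2 := (hana _ (cd.β_mem j)).pow m
    have hβ0 : ev D (γ z) (τ z) (cd.β j) ≠ 0 :=
      (cd.step_iff (γ z) j hj.self_of_nhds.2.2 (τ z) (hs z hz hzG'.2.1)).1 (hstep z hzG')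
    have h3 := h1.div h2 (pow_ne_zero m hβ0)
    refine h3.congr ?_
    filter_upwards [hj, hGo.mem_nhds hzG'] with w hw1 hw2
    exact hform j f m hm w hw2 hw1.2.2
  · intro f z hz
    obtain ⟨j, hj, hmer⟩ := kc_near hU hγ cd τ hτ hs z hz
    obtain ⟨m, hm⟩ := cd.β_loc j f
    have h1 := hmer _ hm
    have h2 := (hmer _ (cd.β_mem j)).pow m
    have h3 := h1.div h2
    refine h3.congr ?_
    filter_upwards [hj, hall z hz] with w hw1 hw2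
    exact hform j f m hm w hw2 hw1.2.2
  · intro z hz hzG
    exact hzG.2.1 hz
  · intro z hz hzG
    exact hγ' z (not_not.1 hzG)
  · intro z hz hzB hq hzG
    exact hzG ⟨hz, hzB, hq⟩

end Pool.Agent.CampanaK
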